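import Mathlib

set_option autoImplicit false

namespace Pool.Agent.H74.Cov

open Finset

/-- digitwise domination in base `p` gives domination modulo `p ^ r` -/
theorem mod_pow_le (p : ℕ) (hp : 0 < p) (r X Y : ℕ)
    (h : ∀ l < r, X / p ^ l % p ≤ Y / p ^ l % p) : X % p ^ r ≤ Y % p ^ r := by
  induction r with
  | zero => simp [Nat.mod_one]
  | succ r ih =>
    rw [Nat.mod_pow_succ, Nat.mod_pow_succ]
    exact Nat.add_le_add (ih (fun l hl => h l (by omega)))
      (Nat.mul_le_mul_left _ (h r (by omega)))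

/-- digitwise domination in base `p` gives digitwise domination in base `p ^ r` -/
theorem digit_base (p : ℕ) (hp : 0 < p) (r X Y : ℕ)
    (h : ∀ l, X / p ^ l % p ≤ Y / p ^ l % p) (i : ℕ) :
    X / (p ^ r) ^ i % (p ^ r) ≤ Y / (p ^ r) ^ i % (p ^ r) := by
  apply mod_pow_le p hp
  intro l _
  rw [Nat.div_div_eq_div_mul, Nat.div_div_eq_div_mul, ← pow_mul, ← pow_add]
  exact h _

/-- the repunit `1 + t + ... + t^(n-1)` -/
def rep (t : ℕ) : ℕ → ℕ
  | 0 => 0
  | n + 1 => 1 + t * rep t n

theorem rep_eq (t n : ℕ) (ht : 1 ≤ t) : (t - 1) * rep t n = t ^ n - 1 := by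
  have h : (t - 1) * rep t n + 1 = t ^ n := by
    induction n with
    | zero => simp [rep]
    | succ n ih =>
      obtain ⟨s, rfl⟩ : ∃ s, t = s + 1 := ⟨t - 1, by omega⟩
      simp only [Nat.add_sub_cancel] at ih ⊢
      rw [rep, pow_succ, ← ih]
      ring
  omega

theorem digit_rep (t c : ℕ) (hc : c < t) (n i : ℕ) (hi : i < n) :
    c * rep t n / t ^ i % t = c := by
  induction n generalizing i with
  | zero => omega
  | succ n ih =>
    have ht : 0 < t := by omega
    have h1 : c * rep t (n + 1) = c + t * (c * rep t n) := by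
      rw [rep]
      ring
    rw [h1]
    cases i with
    | zero =>
      rw [pow_zero, Nat.div_one, Nat.add_mul_mod_self_left, Nat.mod_eq_of_lt hc]
    | succ i =>
      rw [pow_succ', ← Nat.div_div_eq_div_mul, Nat.add_mul_div_left _ _ ht,
        Nat.div_eq_of_lt hc, zero_add]
      exact ih i (by omega)

theorem exists_digit_ne (t : ℕ) (ht : 2 ≤ t) (n x : ℕ) (hx : 0 < x) (hx' : x < t ^ n) :
    ∃ i < n, x / t ^ i % t ≠ 0 := by
  induction n generalizing x with
  | zero =>
    simp at hx'
    omega
  | succ n ih =>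
    by_cases h0 : x % t = 0
    · have h1 : 0 < x / t := by
        rcases Nat.eq_zero_or_pos (x / t) with h | h
        · exfalso
          have := Nat.mod_add_div x t
          rw [h0, h] at this
          omega
        · exact h
      have h2 : x / t < t ^ n := by
        rw [Nat.div_lt_iff_lt_mul (by omega)]
        rw [pow_succ] at hx'
        exact hx'
      obtain ⟨i, hi, hi'⟩ := ih _ h1 h2
      refine ⟨i + 1, by omega, ?_⟩
      rw [pow_succ', ← Nat.div_div_eq_div_mul]
      exact hi'
    · exact ⟨0, by omega, by simpa using h0⟩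

theorem digit_pow (t : ℕ) (ht : 2 ≤ t) (i j : ℕ) :
    t ^ i / t ^ j % t = if j = i then 1 else 0 := by
  split_ifs with h
  · subst h
    rw [Nat.div_self (by positivity), Nat.mod_eq_of_lt (by omega)]
  · rcases Nat.lt_or_gt_of_ne h with h | h
    · obtain ⟨k, rfl⟩ : ∃ k, i = j + (k + 1) := ⟨i - j - 1, by omega⟩
      rw [pow_add, Nat.mul_div_cancel_left _ (by positivity), pow_succ]
      simp
    · rw [Nat.div_eq_of_lt (Nat.pow_lt_pow_right (by omega) h), Nat.zero_mod]

end Pool.Agent.H74.Cov
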