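import Mathlib

set_option autoImplicit false

/-!
Finite field part of the covering theorem: if `d` is coprime to `q - 1` and no binomial
coefficient pair survives, then `x ↦ x ^ d` is additive on the field with `q` elements.
-/

namespace Pool.Agent.H74.Cov

open Finset

/-- Lucas: a binomial coefficient that is nonzero modulo `p` gives digitwise domination. -/
theorem digit_le_of_choose {p : ℕ} (hp : p.Prime) :
    ∀ (l n k : ℕ), ¬ p ∣ n.choose k → k / p ^ l % p ≤ n / p ^ l % p := by
  have := Fact.mk hp
  intro l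
  induction l with
  | zero =>
    intro n k h
    simp only [pow_zero, Nat.div_one]
    by_contra hlt
    push Not at hlt
    apply h
    have := Choose.choose_modEq_choose_mod_mul_choose_div_nat (n := n) (k := k) (p := p)
    rw [Nat.choose_eq_zero_of_lt hlt, zero_mul] at this
    exact (Nat.modEq_zero_iff_dvd).mp this
  | succ l ih =>
    intro n k h
    have h2 : ¬ p ∣ (n / p).choose (k / p) := by
      intro hd
      apply h
      have := Choose.choose_modEq_choose_mod_mul_choose_div_nat (n := n) (k := k) (p := p)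
      apply (Nat.modEq_zero_iff_dvd).mp
      exact this.trans ((Nat.modEq_zero_iff_dvd).mpr (hd.mul_left _))
    have := ih _ _ h2
    rwa [Nat.div_div_eq_div_mul, Nat.div_div_eq_div_mul, ← pow_succ'] at this

section field

variable {F : Type*} [Field F] [Fintype F]

theorem sum_pow_eq (i : ℕ) (hi : 0 < i) :
    ∑ u : F, u ^ i = if (Fintype.card F - 1) ∣ i then -1 else 0 := by
  classical
  rw [← FiniteField.sum_pow_units F i]
  let φ : Fˣ ↪ F := ⟨fun x ↦ x, Units.val_injective⟩
  have h : univ.map φ = univ \ {0} := by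
    ext x
    simpa only [mem_map, mem_univ, Function.Embedding.coeFn_mk, true_and, mem_sdiff,
      mem_singleton, φ] using! isUnit_iff_ne_zero
  calc
    ∑ x : F, x ^ i = ∑ x ∈ univ \ {(0 : F)}, x ^ i := by
      rw [← sum_sdiff ({0} : Finset F).subset_univ, sum_singleton, zero_pow hi.ne', add_zero]
    _ = ∑ x : Fˣ, (x ^ i : F) := by simp [φ, ← h, univ.sum_map φ]

theorem pow_mod (x : F) (k : ℕ) (hk : 0 < k % (Fintype.card F - 1)) :
    x ^ k = x ^ (k % (Fintype.card F - 1)) := by
  by_cases hx : x = 0
  · subst hx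
    have hk0 : k ≠ 0 := by
      rintro rfl
      simp at hk
    rw [zero_pow hk0, zero_pow hk.ne']
  · conv_lhs => rw [← Nat.mod_add_div k (Fintype.card F - 1)]
    rw [pow_add, pow_mul, FiniteField.pow_card_sub_one_eq_one x hx, one_pow, mul_one]

/-- The sums `∑ u, u^E (1-u)^G`. -/
theorem sum_beta {p : ℕ} [CharP F p] (E G : ℕ) (hE : 0 < E) (hE' : E < Fintype.card F - 1)
    (hG' : G < Fintype.card F - 1)
    (h : Fintype.card F - 1 ≤ E + G → p ∣ G.choose (E + G - (Fintype.card F - 1))) :
    ∑ u : F, u ^ E * (1 - u) ^ G = 0 := by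
  set N := Fintype.card F - 1 with hN
  have h1 : ∀ u : F, u ^ E * (1 - u) ^ G =
      ∑ v ∈ range (G + 1), (-1 : F) ^ v * (G.choose v : F) * u ^ (E + v) := by
    intro u
    have : (1 - u) = (-u + 1) := by ring
    rw [this, add_pow, mul_sum]
    apply sum_congr rfl
    intro v _
    rw [one_pow, neg_pow, pow_add]
    ring
  simp_rw [h1]
  rw [sum_comm]
  apply sum_eq_zero
  intro v hv
  rw [mem_range] at hv
  rw [← mul_sum, sum_pow_eq _ (by omega), ← hN]
  split_ifs with hd
  · have hEv : E + v = N := by
      obtain ⟨c, hc⟩ := hd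
      have : c = 1 := by
        rcases Nat.lt_trichotomy c 1 with h0 | h0 | h0
        · have : c = 0 := by omega
          subst this
          omega
        · exact h0
        · exfalso
          have : N * 2 ≤ N * c := Nat.mul_le_mul_left _ h0
          omega
      subst this
      omega
    have hd2 := h (by omega)
    have hch : G.choose v = G.choose (E + G - N) := by
      have : E + G - N = G - v := by omega
      rw [this, Nat.choose_symm (by omega)]
    have : ((G.choose v : ℕ) : F) = 0 := by
      rw [CharP.cast_eq_zero_iff F p, hch]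
      exact hd2
    rw [this]
    ring
  · ring

/-- Main computation: under the hypothesis `H`, the power sums of
`u ↦ α u^d + β (1-u)^d` vanish for all exponents strictly between `0` and `q - 1`. -/
theorem power_sum_zero {p : ℕ} [CharP F p] (d : ℕ)
    (hd : Nat.Coprime d (Fintype.card F - 1))
    (H : ∀ j b : ℕ, 0 < j → j < b → b < Fintype.card F - 1 → ¬ p ∣ b.choose j →
      p ∣ ((d * j) % (Fintype.card F - 1)).choose ((d * b) % (Fintype.card F - 1)))
    (α β : F) (b : ℕ) (hb : 0 < b) (hb' : b < Fintype.card F - 1) :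
    ∑ u : F, (α * u ^ d + β * (1 - u) ^ d) ^ b = 0 := by
  set N := Fintype.card F - 1 with hN
  have hmod : ∀ i, 0 < i → i < N → 0 < (d * i) % N := by
    intro i hi hi'
    rw [Nat.pos_iff_ne_zero]
    intro h0
    have h1 : N ∣ d * i := Nat.dvd_of_mod_eq_zero h0
    have h2 : N ∣ i := hd.symm.dvd_of_dvd_mul_left h1
    exact absurd (Nat.le_of_dvd hi h2) (by omega)
  have hNpos : 0 < N := by omega
  have hlt : ∀ i, (d * i) % N < N := fun i => Nat.mod_lt _ hNpos
  have hpw : ∀ (u : F) (i : ℕ), 0 < i → i < N → (u ^ d) ^ i = u ^ ((d * i) % N) := by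
    intro u i hi hi'
    rw [← pow_mul, pow_mod _ _ (by rw [← hN]; exact hmod i hi hi')]
  have hexp : ∀ u : F, (α * u ^ d + β * (1 - u) ^ d) ^ b =
      ∑ i ∈ range (b + 1), (α ^ i * β ^ (b - i) * (b.choose i : F)) *
        ((u ^ d) ^ i * ((1 - u) ^ d) ^ (b - i)) := by
    intro u
    rw [add_pow]
    apply sum_congr rfl
    intro i _
    rw [mul_pow, mul_pow]
    ring
  simp_rw [hexp]
  rw [sum_comm]
  apply sum_eq_zero
  intro i hi
  rw [mem_range] at hi
  rw [← mul_sum]
  -- edge terms
  have hsingle : ∀ k, 0 < k → k < N → ∑ u : F, u ^ ((d * k) % N) = 0 := by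
    intro k hk hk'
    rw [sum_pow_eq _ (hmod k hk hk'), ← hN, if_neg]
    intro hdv
    exact absurd (Nat.le_of_dvd (hmod k hk hk') hdv) (by have := hlt k; omega)
  rcases Nat.eq_zero_or_pos i with h0 | hipos
  · subst h0
    have : ∑ u : F, ((u ^ d) ^ 0 * ((1 - u) ^ d) ^ (b - 0)) = 0 := by
      have h1 : ∀ u : F, ((u ^ d) ^ 0 * ((1 - u) ^ d) ^ (b - 0)) = (1 - u) ^ ((d * b) % N) := by
        intro u
        rw [pow_zero, one_mul, Nat.sub_zero, hpw _ _ hb hb']
      simp_rw [h1]
      rw [← hsingle b hb hb']
      exact Fintype.sum_equiv (Equiv.subLeft (1 : F)) _ _ (fun u => rfl)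
    rw [this, mul_zero]
  rcases Nat.lt_or_ge i b with hib | hib
  · -- middle terms
    by_cases hp : p ∣ b.choose i
    · have : ((b.choose i : ℕ) : F) = 0 := by
        rw [CharP.cast_eq_zero_iff F p]
        exact hp
      rw [this]
      ring
    · have hb2 : ¬ p ∣ b.choose (b - i) := by
        rw [Nat.choose_symm (by omega)]
        exact hp
      have hH := H (b - i) b (by omega) (by omega) hb' hb2
      have h1 : ∀ u : F, ((u ^ d) ^ i * ((1 - u) ^ d) ^ (b - i)) =
          u ^ ((d * i) % N) * (1 - u) ^ ((d * (b - i)) % N) := by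
        intro u
        rw [hpw _ _ hipos (by omega), hpw _ _ (by omega) (by omega)]
      simp_rw [h1]
      rw [sum_beta (p := p) _ _ (hmod i hipos (by omega)) (hlt _) (hlt _), mul_zero]
      intro hge
      rw [← hN] at hge ⊢
      have : (d * i) % N + (d * (b - i)) % N - N = (d * b) % N := by
        have e1 : d * b = d * i + d * (b - i) := by
          rw [← Nat.mul_add]
          congr 1
          omega
        rw [e1, Nat.add_mod]
        have hl1 := hlt i
        have hl2 := hlt (b - i)
        have h3 : ∀ X Y : ℕ, X < N → Y < N → N ≤ X + Y → X + Y - N = (X + Y) % N := by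
          intro X Y hX hY hXY
          rw [Nat.mod_eq_sub_mod hXY, Nat.mod_eq_of_lt (by omega)]
        exact h3 _ _ hl1 hl2 hge
      rw [this]
      exact hH
  · have hib' : i = b := by omega
    subst hib'
    have : ∑ u : F, ((u ^ d) ^ i * ((1 - u) ^ d) ^ (i - i)) = 0 := by
      have h1 : ∀ u : F, ((u ^ d) ^ i * ((1 - u) ^ d) ^ (i - i)) = u ^ ((d * i) % N) := by
        intro u
        rw [Nat.sub_self, pow_zero, mul_one, hpw _ _ hb hb']
      simp_rw [h1]
      exact hsingle i hb hb'
    rw [this, mul_zero]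

end field

end Pool.Agent.H74.Cov
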