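import Mathlib
import Pool.Agent.H74.Cov.Field

set_option autoImplicit false

namespace Pool.Agent.H74.Cov

open Finset

variable {F : Type*} [Field F] [Fintype F]

theorem pow_inj (d : ℕ) (hd0 : 0 < d) (hd : Nat.Coprime d (Fintype.card F - 1)) :
    Function.Injective (fun x : F => x ^ d) := by
  intro x y hxy
  simp only at hxy
  by_cases hy : y = 0
  · subst hy
    rw [zero_pow hd0.ne'] at hxy
    exact pow_eq_zero_iff hd0.ne' |>.mp hxy
  · by_cases hx : x = 0
    · subst hx
      rw [zero_pow hd0.ne'] at hxy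
      exact absurd (pow_eq_zero_iff hd0.ne' |>.mp hxy.symm) hy
    · have h1 : (x / y) ^ d = 1 := by
        rw [div_pow, hxy, div_self (pow_ne_zero _ hy)]
      have h2 : (x / y) ^ (Fintype.card F - 1) = 1 :=
        FiniteField.pow_card_sub_one_eq_one _ (div_ne_zero hx hy)
      have h3 : (x / y) ^ (Nat.gcd d (Fintype.card F - 1)) = 1 := pow_gcd_eq_one.mpr ⟨h1, h2⟩
      rw [hd.gcd_eq_one, pow_one] at h3
      exact (div_eq_one_iff_eq hy).mp h3

theorem neg_one_pow_eq (d : ℕ) (hd0 : 0 < d) (hd : Nat.Coprime d (Fintype.card F - 1)) :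
    (-1 : F) ^ d = -1 := by
  rcases neg_one_pow_eq_or F d with h | h
  · have h1 : (-1 : F) = 1 := pow_inj d hd0 hd (by simp [h])
    rw [h, h1]
  · exact h

/-- There is exactly one zero of `α u^d + β (1-u)^d`. -/
theorem exists_unique_zero (d : ℕ) (hd0 : 0 < d) (hd : Nat.Coprime d (Fintype.card F - 1))
    (α β : F) (hα : α ≠ 0) (hβ : β ≠ 0) (hαβ : α ≠ β) :
    ∃! u : F, α * u ^ d + β * (1 - u) ^ d = 0 := by
  have hinj := pow_inj (F := F) d hd0 hd
  have hsurj : Function.Surjective (fun x : F => x ^ d) :=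
    Finite.injective_iff_surjective.mp hinj
  obtain ⟨w, hw⟩ := hsurj (-β / α)
  simp only at hw
  have hw1 : 1 + w ≠ 0 := by
    intro h
    have h1 : w = -1 := by linear_combination h
    rw [h1, neg_one_pow_eq d hd0 hd] at hw
    apply hαβ
    field_simp at hw
    linear_combination -hw
  refine ⟨w / (1 + w), ?_, ?_⟩
  · simp only
    have h1 : 1 - w / (1 + w) = 1 / (1 + w) := by
      field_simp
      ring
    rw [h1, div_pow, div_pow, hw, one_pow]
    have h2 : (1 + w) ^ d ≠ 0 := pow_ne_zero _ hw1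
    field_simp
    ring
  · intro u hu
    have hu1 : 1 - u ≠ 0 := by
      intro h
      have h1 : u = 1 := by linear_combination -h
      rw [h, h1, one_pow, zero_pow hd0.ne'] at hu
      apply hα
      linear_combination hu
    have h2 : (1 - u) ^ d ≠ 0 := pow_ne_zero _ hu1
    have h1 : (u / (1 - u)) ^ d = w ^ d := by
      rw [hw, div_pow, div_eq_div_iff h2 hα]
      linear_combination hu
    have h3 : u / (1 - u) = w := hinj h1
    rw [eq_div_iff hw1, ← h3]
    field_simp
    ring

/-- Every map `u ↦ α u^d + β (1-u)^d` with `α ≠ β` nonzero is onto. -/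
theorem surj {p : ℕ} [CharP F p] (d : ℕ) (hd0 : 0 < d)
    (hd : Nat.Coprime d (Fintype.card F - 1)) (hN : 0 < Fintype.card F - 1)
    (H : ∀ j b : ℕ, 0 < j → j < b → b < Fintype.card F - 1 → ¬ p ∣ b.choose j →
      p ∣ ((d * j) % (Fintype.card F - 1)).choose ((d * b) % (Fintype.card F - 1)))
    (α β : F) (hα : α ≠ 0) (hβ : β ≠ 0) (hαβ : α ≠ β) :
    Function.Surjective (fun u : F => α * u ^ d + β * (1 - u) ^ d) := by
  classical
  intro γ
  by_contra hno
  push Not at hno
  set N := Fintype.card F - 1 with hNdef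
  set f : F → F := fun u => α * u ^ d + β * (1 - u) ^ d with hf
  have h1 : ∑ u : F, (f u + -γ) ^ N = 0 := by
    have : ∀ u : F, (f u + -γ) ^ N = 1 := by
      intro u
      apply FiniteField.pow_card_sub_one_eq_one
      intro h
      exact hno u (by linear_combination h)
    simp_rw [this]
    simp
  have h2 : ∑ u : F, (f u + -γ) ^ N = ∑ u : F, f u ^ N := by
    simp_rw [add_pow]
    rw [sum_comm, sum_range_succ]
    have h3 : ∑ x ∈ range N, ∑ u : F, f u ^ x * (-γ) ^ (N - x) * (N.choose x : F) = 0 := by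
      apply sum_eq_zero
      intro x hx
      rw [mem_range] at hx
      rw [← sum_mul, ← sum_mul]
      have : ∑ u : F, f u ^ x = 0 := by
        rcases Nat.eq_zero_or_pos x with h0 | hpos
        · subst h0
          simp
        · exact power_sum_zero (p := p) d hd H α β x hpos hx
      rw [this]
      ring
    rw [h3, zero_add]
    simp
  have h3 : ∑ u : F, f u ^ N = -1 := by
    obtain ⟨u0, hu0, huniq⟩ := exists_unique_zero d hd0 hd α β hα hβ hαβ
    have h4 : ∀ u : F, f u ^ N = if u = u0 then 0 else 1 := by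
      intro u
      split_ifs with h
      · subst h
        rw [hf]
        simp only
        rw [hu0, zero_pow hN.ne']
      · apply FiniteField.pow_card_sub_one_eq_one
        intro h5
        exact h (huniq u h5)
    simp_rw [h4]
    have h5 : ∀ u : F, (if u = u0 then (0 : F) else 1) = 1 - (if u = u0 then 1 else 0) := by
      intro u
      split_ifs <;> ring
    simp_rw [h5]
    rw [sum_sub_distrib]
    simp
  rw [h2, h3] at h1
  exact one_ne_zero (α := F) (by linear_combination -h1)

/-- Hence `u^d + (1-u)^d = 1` for all `u`. -/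
theorem pow_add_pow_one_sub {p : ℕ} [CharP F p] (d : ℕ) (hd0 : 0 < d)
    (hd : Nat.Coprime d (Fintype.card F - 1)) (hN : 0 < Fintype.card F - 1)
    (H : ∀ j b : ℕ, 0 < j → j < b → b < Fintype.card F - 1 → ¬ p ∣ b.choose j →
      p ∣ ((d * j) % (Fintype.card F - 1)).choose ((d * b) % (Fintype.card F - 1)))
    (u : F) : u ^ d + (1 - u) ^ d = 1 := by
  by_contra hne
  have hu : u ≠ 0 := by
    rintro rfl
    apply hne
    rw [zero_pow hd0.ne', sub_zero, one_pow, zero_add]
  have hα : (1 - u) ^ d - 1 ≠ 0 := by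
    intro h
    have h1 : (1 - u) ^ d = 1 ^ d := by rw [one_pow]; linear_combination h
    have h2 : 1 - u = 1 := pow_inj d hd0 hd h1
    exact hu (by linear_combination -h2)
  have hβ : -(u ^ d) ≠ 0 := neg_ne_zero.mpr (pow_ne_zero _ hu)
  have hαβ : (1 - u) ^ d - 1 ≠ -(u ^ d) := by
    intro h
    exact hne (by linear_combination h)
  have hs := surj (p := p) d hd0 hd hN H _ _ hα hβ hαβ
  have hi := Finite.injective_iff_surjective.mpr hs
  apply hu
  apply hi
  simp only
  rw [zero_pow hd0.ne', sub_zero, one_pow]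
  ring

theorem pow_add {p : ℕ} [CharP F p] (d : ℕ) (hd0 : 0 < d)
    (hd : Nat.Coprime d (Fintype.card F - 1)) (hN : 0 < Fintype.card F - 1)
    (H : ∀ j b : ℕ, 0 < j → j < b → b < Fintype.card F - 1 → ¬ p ∣ b.choose j →
      p ∣ ((d * j) % (Fintype.card F - 1)).choose ((d * b) % (Fintype.card F - 1)))
    (x y : F) : (x + y) ^ d = x ^ d + y ^ d := by
  by_cases h : x + y = 0
  · have hy : y = (-1) * x := by linear_combination h
    rw [h, zero_pow hd0.ne', hy, mul_pow, neg_one_pow_eq d hd0 hd]
    ring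
  · have h1 := pow_add_pow_one_sub (p := p) d hd0 hd hN H (x / (x + y))
    have h2 : 1 - x / (x + y) = y / (x + y) := by
      field_simp
      ring
    rw [h2, div_pow, div_pow] at h1
    have h3 : (x + y) ^ d ≠ 0 := pow_ne_zero _ h
    field_simp at h1
    exact h1.symm

/-- The conclusion: `d` is a power of the characteristic modulo `q - 1`. -/
theorem eq_pow_char {p : ℕ} [Fact p.Prime] [CharP F p] (d : ℕ) (hd0 : 0 < d)
    (hd : Nat.Coprime d (Fintype.card F - 1)) (hN : 0 < Fintype.card F - 1)
    (H : ∀ j b : ℕ, 0 < j → j < b → b < Fintype.card F - 1 → ¬ p ∣ b.choose j →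
      p ∣ ((d * j) % (Fintype.card F - 1)).choose ((d * b) % (Fintype.card F - 1))) :
    ∃ k : ℕ, d ≡ p ^ k [MOD (Fintype.card F - 1)] := by
  let _ : Algebra (ZMod p) F := ZMod.algebra F p
  let φ : F →+* F :=
    { toFun := fun x => x ^ d
      map_one' := one_pow d
      map_mul' := fun x y => mul_pow x y d
      map_zero' := zero_pow hd0.ne'
      map_add' := fun x y => pow_add (p := p) d hd0 hd hN H x y }
  let ψ : F →ₐ[ZMod p] F :=
    { φ with
      commutes' := fun r => by
        have := RingHom.ext_zmod ((φ : F →+* F).comp (algebraMap (ZMod p) F))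
          (algebraMap (ZMod p) F)
        exact congrArg (fun g : ZMod p →+* F => g r) this }
  obtain ⟨k, hk⟩ := (FiniteField.bijective_frobeniusAlgHom_pow (ZMod p) F).2 ψ
  refine ⟨k.1, ?_⟩
  have h1 : ∀ x : F, x ^ d = x ^ (p ^ k.1) := by
    intro x
    have h2 : ψ x = x ^ d := rfl
    rw [← h2, ← hk]
    simp only
    rw [AlgHom.coe_pow, FiniteField.coe_frobeniusAlgHom, pow_iterate, ZMod.card]
  obtain ⟨g, hg⟩ := IsCyclic.exists_generator (α := Fˣ)
  have hord : orderOf g = Fintype.card F - 1 := by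
    rw [orderOf_eq_card_of_forall_mem_zpowers hg, Nat.card_units, Nat.card_eq_fintype_card]
  rw [← hord]
  rw [← pow_eq_pow_iff_modEq]
  ext
  push_cast
  exact h1 _

end Pool.Agent.H74.Cov
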