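import Mathlib
import Pool.Agent.H74.Cov.Field
import Pool.Agent.H74.Cov.Additive
import Pool.Agent.H74.Cov.Digits

set_option autoImplicit false

namespace Pool.Agent.H74.Cov.PrimePower

open Pool.Agent.H74.Cov

/-- The `i`-th base `t` digit of the standard representative in `{0, ..., t ^ n - 2}` of `a`. -/
def digit (t n : ℕ) (a : ZMod (t ^ n - 1)) (i : ℕ) : ℕ := a.val / t ^ i % t

/-- `b` covers `a`: every base `t` digit of `a` is at most the corresponding digit of `b`. -/
def Covered (t n : ℕ) (a b : ZMod (t ^ n - 1)) : Prop := ∀ i < n, digit t n a i ≤ digit t n b i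

theorem result (t n d : ℕ) (ht : IsPrimePow t) (hn : 1 ≤ n)
    (hd : (d : ZMod (t ^ n - 1)) ≠ 0)
    (hpow : ∀ k : ℕ, (d : ZMod (t ^ n - 1)) ≠ (t : ZMod (t ^ n - 1)) ^ k) :
    ∃ a b : ZMod (t ^ n - 1), a ≠ 0 ∧ b ≠ 0 ∧
      (Covered t n a b ∧ a ≠ b) ∧
      (Covered t n ((d : ZMod (t ^ n - 1)) * b) ((d : ZMod (t ^ n - 1)) * a) ∧
        (d : ZMod (t ^ n - 1)) * b ≠ (d : ZMod (t ^ n - 1)) * a) := by
  obtain ⟨p, r, hp, hr, hpr⟩ := ht
  have hp : p.Prime := hp.nat_prime
  have ht2 : 2 ≤ t := by
    rw [← hpr]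
    calc 2 ≤ p := hp.two_le
      _ = p ^ 1 := (pow_one p).symm
      _ ≤ p ^ r := Nat.pow_le_pow_right hp.pos hr
  have htn : 2 ≤ t ^ n := by
    calc 2 ≤ t := ht2
      _ = t ^ 1 := (pow_one t).symm
      _ ≤ t ^ n := Nat.pow_le_pow_right (by omega) hn
  obtain ⟨N, hN⟩ : ∃ N, t ^ n - 1 = N := ⟨_, rfl⟩
  have htn' : t ^ n = N + 1 := by omega
  have hNpos : 0 < N := by omega
  have hNne : NeZero (t ^ n - 1) := ⟨by omega⟩
  have hval : ∀ x : ℕ, x < N → ((x : ℕ) : ZMod (t ^ n - 1)).val = x := by
    intro x hx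
    rw [ZMod.val_natCast, Nat.mod_eq_of_lt (by omega)]
  have hne0 : ∀ x : ℕ, 0 < x → x < N → ((x : ℕ) : ZMod (t ^ n - 1)) ≠ 0 := by
    intro x hx hx' h
    rw [ZMod.natCast_eq_zero_iff, hN] at h
    exact absurd (Nat.le_of_dvd hx h) (by omega)
  have hdN : ¬ N ∣ d := by
    intro h
    apply hd
    rw [ZMod.natCast_eq_zero_iff, hN]
    exact h
  have hd0 : 0 < d := by
    rcases Nat.eq_zero_or_pos d with h | h
    · exfalso
      apply hdN
      rw [h]
      exact dvd_zero _
    · exact h
  have htunit : IsUnit (t : ZMod (t ^ n - 1)) := by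
    apply IsUnit.of_pow_eq_one (n := n) _ (by omega)
    have h1 : (((t ^ n - 1 + 1 : ℕ)) : ZMod (t ^ n - 1)) = 1 := by
      rw [Nat.cast_add, ZMod.natCast_self]
      simp
    rw [← Nat.cast_pow]
    rw [show t ^ n - 1 + 1 = t ^ n by omega] at h1
    exact h1
  by_cases hg : Nat.gcd d N = 1
  · -- coprime case
    have hdunit : IsUnit (d : ZMod (t ^ n - 1)) := by
      rw [ZMod.isUnit_iff_coprime, hN]
      exact hg
    have hpf : Fact p.Prime := ⟨hp⟩
    by_contra hno
    push Not at hno
    -- the field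
    let F := GaloisField p (r * n)
    have : Fintype F := Fintype.ofFinite F
    have hcard : Fintype.card F = t ^ n := by
      have h1 := GaloisField.card p (r * n) (by positivity)
      rw [Nat.card_eq_fintype_card] at h1
      rw [h1, ← hpr, pow_mul]
    have hcard1 : Fintype.card F - 1 = N := by omega
    have hmul : ∀ x : ℕ, ((d : ZMod (t ^ n - 1)) * ((x : ℕ) : ZMod (t ^ n - 1))).val = d * x % N := by
      intro x
      rw [← Nat.cast_mul, ZMod.val_natCast, hN]
    have key := eq_pow_char (F := F) (p := p) d hd0 (by rw [hcard1]; exact hg)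
      (by omega) (by
        rw [hcard1]
        intro j b hj hjb hb hch
        by_contra hch2
        have c1 : Covered t n ((j : ℕ) : ZMod (t ^ n - 1)) ((b : ℕ) : ZMod (t ^ n - 1)) := by
          intro i _
          unfold digit
          rw [hval j (by omega), hval b hb, ← hpr]
          exact digit_base p hp.pos r j b (fun l => digit_le_of_choose hp l b j hch) i
        have c2 : Covered t n ((d : ZMod (t ^ n - 1)) * ((b : ℕ) : ZMod (t ^ n - 1)))
            ((d : ZMod (t ^ n - 1)) * ((j : ℕ) : ZMod (t ^ n - 1))) := by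
          intro i _
          unfold digit
          rw [hmul, hmul, ← hpr]
          exact digit_base p hp.pos r _ _ (fun l => digit_le_of_choose hp l _ _ hch2) i
        have hjb' : ((j : ℕ) : ZMod (t ^ n - 1)) ≠ ((b : ℕ) : ZMod (t ^ n - 1)) := by
          intro h
          have := congrArg ZMod.val h
          rw [hval j (by omega), hval b hb] at this
          omega
        have h5 := hno _ _ (hne0 j hj (by omega)) (hne0 b (by omega) hb) ⟨c1, hjb'⟩ c2
        exact hjb' (hdunit.mul_left_cancel h5).symm)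
    obtain ⟨k, hk⟩ := key
    rw [hcard1] at hk
    have hk' : (d : ZMod (t ^ n - 1)) = (p : ZMod (t ^ n - 1)) ^ k := by
      rw [← Nat.cast_pow, ZMod.natCast_eq_natCast_iff, hN]
      exact hk
    have hkdiv : r * (k / r) + k % r = k := Nat.div_add_mod k r
    have htr : (t : ZMod (t ^ n - 1)) = (p : ZMod (t ^ n - 1)) ^ r := by
      rw [← Nat.cast_pow, hpr]
    by_cases hs : k % r = 0
    · apply hpow (k / r)
      rw [hk', htr, ← pow_mul]
      congr 1
      omega
    · set s := k % r with hsdef
      have hsr : s < r := Nat.mod_lt _ hr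
      have hspos : 0 < s := Nat.pos_of_ne_zero hs
      set E := rep t n with hE
      have hrep : (t - 1) * E = N := by rw [hE, rep_eq t n (by omega)]; exact hN
      have hEpos : 0 < E := by
        rcases Nat.eq_zero_or_pos E with h | h
        · rw [h] at hrep
          omega
        · exact h
      have htE : (t : ZMod (t ^ n - 1)) * (E : ZMod (t ^ n - 1)) = (E : ZMod (t ^ n - 1)) := by
        have h1 : t * E = E + N := by
          rw [← hrep]
          obtain ⟨t', rfl⟩ : ∃ t', t = t' + 1 := ⟨t - 1, by omega⟩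
          simp only [Nat.add_sub_cancel]
          ring
        have h2 : ((N : ℕ) : ZMod (t ^ n - 1)) = 0 := by
          rw [← hN]
          exact ZMod.natCast_self _
        rw [← Nat.cast_mul, h1, Nat.cast_add, h2, add_zero]
      have htmE : ∀ m : ℕ, (t : ZMod (t ^ n - 1)) ^ m * (E : ZMod (t ^ n - 1)) =
          (E : ZMod (t ^ n - 1)) := by
        intro m
        induction m with
        | zero => simp
        | succ m ih => rw [pow_succ, mul_assoc, htE, ih]
      have hlt : ∀ e, e < r → p ^ e < t ∧ (0 < e → p ^ e * E < N) := by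
        intro e he
        have h1 : p ^ (e + 1) ≤ p ^ r := Nat.pow_le_pow_right hp.pos he
        rw [hpr] at h1
        have h2 : p ^ (e + 1) = p ^ e * p := pow_succ p e
        have h3 : p ^ e * 2 ≤ p ^ e * p := Nat.mul_le_mul_left _ hp.two_le
        have h4 : 0 < p ^ e := Nat.pow_pos hp.pos
        refine ⟨by omega, fun he0 => ?_⟩
        have h5 : 2 ≤ p ^ e := by
          calc 2 ≤ p := hp.two_le
            _ = p ^ 1 := (pow_one p).symm
            _ ≤ p ^ e := Nat.pow_le_pow_right hp.pos he0
        rw [← hrep]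
        exact Nat.mul_lt_mul_of_pos_right (by omega) hEpos
      have hE1 : 1 * E < N := by
        have h1 := (hlt s hsr).2 hspos
        have h2 : 0 < p ^ s := Nat.pow_pos hp.pos
        calc 1 * E ≤ p ^ s * E := Nat.mul_le_mul_right _ h2
          _ < N := h1
      have hds : (d : ZMod (t ^ n - 1)) * ((1 * E : ℕ) : ZMod (t ^ n - 1)) =
          ((p ^ s * E : ℕ) : ZMod (t ^ n - 1)) := by
        have h1 : (d : ZMod (t ^ n - 1)) = (p : ZMod (t ^ n - 1)) ^ s *
            (t : ZMod (t ^ n - 1)) ^ (k / r) := by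
          rw [hk', htr, ← pow_mul, ← _root_.pow_add]
          congr 1
          omega
        rw [h1, one_mul, mul_assoc, htmE, Nat.cast_mul, Nat.cast_pow]
      have hds2 : (d : ZMod (t ^ n - 1)) * ((p ^ (r - s) * E : ℕ) : ZMod (t ^ n - 1)) =
          ((1 * E : ℕ) : ZMod (t ^ n - 1)) := by
        have h1 : (d : ZMod (t ^ n - 1)) * (p : ZMod (t ^ n - 1)) ^ (r - s) =
            (t : ZMod (t ^ n - 1)) ^ (k / r + 1) := by
          rw [hk', htr, ← pow_mul, ← _root_.pow_add]
          congr 1
          rw [Nat.mul_add]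
          omega
        rw [Nat.cast_mul, Nat.cast_pow, ← mul_assoc, h1, htmE, one_mul]
      have hgt : ∀ e, 0 < e → 1 < p ^ e := fun e he => Nat.one_lt_pow (by omega) hp.one_lt
      have hrs : r - s < r := by omega
      have hcov : ∀ e, 0 < e → e < r →
          Covered t n ((1 * E : ℕ) : ZMod (t ^ n - 1)) ((p ^ e * E : ℕ) : ZMod (t ^ n - 1)) := by
        intro e he he' i hi
        unfold digit
        rw [hval _ hE1, hval _ ((hlt e he').2 he), hE, digit_rep t 1 (by omega) n i hi,
          digit_rep t (p ^ e) (hlt e he').1 n i hi]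
        exact (hgt e he).le
      have hneq : ∀ e, 0 < e → e < r →
          ((1 * E : ℕ) : ZMod (t ^ n - 1)) ≠ ((p ^ e * E : ℕ) : ZMod (t ^ n - 1)) := by
        intro e he he' h
        have := congrArg ZMod.val h
        rw [hval _ hE1, hval _ ((hlt e he').2 he)] at this
        have h2 := Nat.mul_lt_mul_of_pos_right (hgt e he) hEpos
        omega
      have h5 := hno ((1 * E : ℕ) : ZMod (t ^ n - 1)) ((p ^ (r - s) * E : ℕ) : ZMod (t ^ n - 1))
        (hne0 _ (by omega) hE1)
        (hne0 _ (Nat.mul_pos (Nat.pow_pos hp.pos) hEpos) ((hlt _ hrs).2 (by omega)))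
        ⟨hcov _ (by omega) hrs, hneq _ (by omega) hrs⟩
        (by rw [hds, hds2]; exact hcov s hspos hsr)
      rw [hds, hds2] at h5
      exact hneq s hspos hsr h5
  · -- gcd case
    obtain ⟨g, hgdef⟩ : ∃ g, Nat.gcd d N = g := ⟨_, rfl⟩
    rw [hgdef] at hg
    have hgN : g ∣ N := hgdef ▸ Nat.gcd_dvd_right d N
    have hgd : g ∣ d := hgdef ▸ Nat.gcd_dvd_left d N
    obtain ⟨c, hc⟩ := hgN
    obtain ⟨e, he⟩ := hgd
    have hgpos : 0 < g := by
      rcases Nat.eq_zero_or_pos g with h | h
      · rw [h] at hc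
        omega
      · exact h
    have hcpos : 0 < c := by
      rcases Nat.eq_zero_or_pos c with h | h
      · rw [h] at hc
        omega
      · exact h
    have hcN : c < N := by
      rw [hc]
      have : 2 * c ≤ g * c := Nat.mul_le_mul_right _ (by omega)
      omega
    obtain ⟨i, hi, hi'⟩ := exists_digit_ne t ht2 n c hcpos (by omega)
    have hdb : (d : ZMod (t ^ n - 1)) * ((c : ℕ) : ZMod (t ^ n - 1)) = 0 := by
      rw [← Nat.cast_mul, ZMod.natCast_eq_zero_iff, hN]
      refine ⟨e, ?_⟩
      rw [he, hc]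
      ring
    have hda : (d : ZMod (t ^ n - 1)) * (t : ZMod (t ^ n - 1)) ^ i ≠ 0 := by
      intro h
      apply hd
      exact (htunit.pow i).mul_left_eq_zero.mp h
    have htiN : t ^ i < N := by
      by_contra hlt
      push Not at hlt
      have h1 : t ^ (i + 1) ≤ t ^ n := Nat.pow_le_pow_right (by omega) hi
      have h2 : t ^ (i + 1) = t ^ i * t := pow_succ t i
      have h3 : t ^ i * 2 ≤ t ^ i * t := Nat.mul_le_mul_left _ ht2
      have h4 : N = 1 := by
        have : 0 < t ^ i := Nat.pow_pos (by omega)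
        omega
      omega
    refine ⟨(t : ZMod (t ^ n - 1)) ^ i, ((c : ℕ) : ZMod (t ^ n - 1)), ?_, hne0 c hcpos hcN,
      ⟨?_, ?_⟩, ?_, ?_⟩
    · intro h
      apply hda
      rw [h, mul_zero]
    · intro j hj
      unfold digit
      rw [hval c hcN, ← Nat.cast_pow, hval _ htiN, digit_pow t ht2 i j]
      split_ifs with hji
      · rw [hji]
        omega
      · exact Nat.zero_le _
    · intro h
      apply hda
      rw [h, hdb]
    · intro j _
      unfold digit
      rw [hdb, ZMod.val_zero, Nat.zero_div, Nat.zero_mod]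
      exact Nat.zero_le _
    · rw [hdb]
      exact fun h => hda h.symm

end Pool.Agent.H74.Cov.PrimePower
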